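import Pool.Agent.H27.LS.Dyadic
import Pool.Agent.H27.LS.TypeOne
import Pool.Agent.H30.PF.Targets

/-!
Targets for MP_04ff0f_nt, second theorem: primes `p` with `Ω(p ^ 2 - 2) ≤ R`.
Large sieve, zero-free region by the 3-4-1 inequality, mean value theorem of Bombieri-Vinogradov
type of small level, Brun-Hooley sieve. Board bv_modules.
-/

set_option autoImplicit false

open Finset Real ArithmeticFunction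
open scoped Nat

namespace Pool.Agent.H30.BV

open Pool.Agent.H27.LS (hat trig muGT gam)
open Pool.Agent.H30.PF (S8 pr)

/-! ## Definitions -/

/-- the length of the sums at the scale `X` -/
noncomputable def NX (X : ℝ) : ℕ := ⌈3 * X⌉₊

/-- the weight of `n` at the scale `X` -/
noncomputable def wx (X : ℝ) (n : ℕ) : ℝ := Λ n * hat (Real.log (n / X))

/-- the total weight -/
noncomputable def WX (X : ℝ) : ℝ := ∑ n ∈ Icc 1 (NX X), wx X n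

/-- weighted sum of `f` -/
noncomputable def TX (X : ℝ) (f : ℕ → ℂ) : ℂ := ∑ n ∈ Icc 1 (NX X), (wx X n : ℂ) * f n

/-- the values of a Dirichlet character at the natural numbers -/
noncomputable def cv {q : ℕ} (χ : DirichletCharacter ℂ q) (n : ℕ) : ℂ := χ (n : ZMod q)

/-- pairs (modulus minus one, character) -/
abbrev PCH := (n : ℕ) × DirichletCharacter ℂ (n + 1)

open Classical in
/-- the primitive characters of conductor `q`, `2 ≤ q ≤ Q` -/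
noncomputable def PC (Q : ℕ) : Finset PCH :=
  (Ico 1 Q).sigma fun n => (univ : Finset (DirichletCharacter ℂ (n + 1))).filter
    fun χ => χ.IsPrimitive

open Classical in
/-- sum over the nontrivial characters modulo `d` -/
noncomputable def SC (X : ℝ) (d : ℕ) : ℝ :=
  ∑ᶠ χ : DirichletCharacter ℂ d, if χ = 1 then 0 else ‖TX X (cv χ)‖

open Classical in
/-- sum over the primitive characters modulo `q` -/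
noncomputable def SP (X : ℝ) (q : ℕ) : ℝ :=
  ∑ᶠ χ : DirichletCharacter ℂ q, if χ.IsPrimitive then ‖TX X (cv χ)‖ else 0

/-- `∑ f(n) (log n)^k n^{-s}` -/
noncomputable def DS (f : ℕ → ℂ) (k : ℕ) (s : ℂ) : ℂ :=
  LSeries (fun n => f n * ((Real.log n ^ k : ℝ) : ℂ)) s

/-- the moduli: odd squarefree numbers up to `D` not divisible by `p₁` -/
def DD (D p₁ : ℕ) : Finset ℕ := (Icc 1 D).filter fun d => Squarefree d ∧ Odd d ∧ ¬ p₁ ∣ d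

/-- `2 ^ ω(d) / φ(d)` -/
noncomputable def hd (d : ℕ) : ℝ := 2 ^ d.primeFactors.card / (d.totient : ℝ)

/-- density of the primes `n` with `n ^ 2 = 2` modulo `p` -/
noncomputable def gg (p : ℕ) : ℝ := if S8 p then 2 / ((p : ℝ) - 1) else 0

/-- density of the integers `n` with `n (n ^ 2 - 2) = 0` modulo `p` -/
noncomputable def gr (p : ℕ) : ℝ := if S8 p then 3 / (p : ℝ) else 1 / p

/-- the sieving primes: odd primes up to `z` different from `p₁` -/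
noncomputable def PZ (z : ℝ) (p₁ : ℕ) : Finset ℕ := (Icc 3 ⌊z⌋₊).filter fun p => p.Prime ∧ p ≠ p₁

/-- the level of a prime: `z ^ (2 ^ -(lv + 1)) < p ≤ z ^ (2 ^ -lv)` -/
noncomputable def lv (z : ℝ) (p : ℕ) : ℕ := ⌊Real.log (Real.log z / Real.log p) / Real.log 2⌋₊

/-- the number of levels -/
noncomputable def nl (z : ℝ) : ℕ := ⌊Real.log (Real.log z) / Real.log 2⌋₊ + 1

open Classical in
/-- the weight of the `n ∈ Ω` which are divisible by all `p ∈ s` -/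
noncomputable def As (Ω : Finset ℕ) (w : ℕ → ℝ) (dv : ℕ → ℕ → Prop) (s : Finset ℕ) : ℝ :=
  ∑ n ∈ Ω.filter (fun n => ∀ p ∈ s, dv p n), w n

open Classical in
/-- the weight of the `n ∈ Ω` which are divisible by no `p ∈ P` -/
noncomputable def Sf (Ω : Finset ℕ) (w : ℕ → ℝ) (dv : ℕ → ℕ → Prop) (P : Finset ℕ) : ℝ :=
  ∑ n ∈ Ω.filter (fun n => ∀ p ∈ P, ¬ dv p n), w n

/-- sets with at most `2 b j + 1` elements of level `j` -/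
def Sad (P : Finset ℕ) (lev b : ℕ → ℕ) (t : ℕ) : Finset (Finset ℕ) :=
  P.powerset.filter fun s => ∀ j ∈ range t, (s.filter fun p => lev p = j).card ≤ 2 * b j + 1

/-- the error term of the sieve -/
noncomputable def Er (Ω : Finset ℕ) (w : ℕ → ℝ) (dv : ℕ → ℕ → Prop) (g : ℕ → ℝ) (Z : ℝ)
    (P : Finset ℕ) (lev b : ℕ → ℕ) (t : ℕ) : ℝ :=
  ∑ s ∈ Sad P lev b t, |As Ω w dv s - Z * ∏ p ∈ s, g p|

/-- the quotient `L_j ^ (2 b + 1) / ((2 b + 1)! V_j)` of a level -/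
noncomputable def qj (P : Finset ℕ) (lev : ℕ → ℕ) (g : ℕ → ℝ) (j b : ℕ) : ℝ :=
  (∑ p ∈ P.filter (fun p => lev p = j), g p) ^ (2 * b + 1) /
    ((2 * b + 1)! * ∏ p ∈ P.filter (fun p => lev p = j), (1 - g p))

/-! ## Part I: large sieve and mean value over the primitive characters -/

/-- GS. Gauss sums of primitive characters. -/
def T_GS : Prop := ∀ (n N : ℕ) (a : ℕ → ℂ),
  (open Classical in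
    ∑ χ ∈ (univ : Finset (DirichletCharacter ℂ (n + 1))).filter (fun χ => χ.IsPrimitive),
      ‖∑ k ∈ range N, a k * cv χ k‖ ^ 2) ≤
  ∑ b ∈ (range (n + 1)).filter (fun b => b.Coprime (n + 1)),
    ‖trig a N ((b : ℝ) / (n + 1 : ℕ))‖ ^ 2

/-- LS. The large sieve for primitive characters. -/
def T_LS : Prop := ∀ (Q N : ℕ) (a : ℕ → ℂ),
  ∑ x ∈ PC Q, ‖∑ k ∈ range N, a k * cv x.2 k‖ ^ 2 ≤
    ((Q : ℝ) ^ 2 + 4 * π * N) * ∑ k ∈ range N, ‖a k‖ ^ 2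

/-- a finite family of functions which satisfies the large sieve inequality -/
def LSI {ι : Type} (C : Finset ι) (f : ι → ℕ → ℂ) (K : ℝ) : Prop := ∀ (N : ℕ) (a : ℕ → ℂ),
  ∑ x ∈ C, ‖∑ n ∈ range N, a n * f x n‖ ^ 2 ≤ (K ^ 2 + 4 * π * N) * ∑ n ∈ range N, ‖a n‖ ^ 2

/-- T2. The bilinear part of Vaughan's identity. -/
def T_T2 : Prop := ∀ (ι : Type) (C : Finset ι) (f : ι → ℕ → ℂ) (K : ℝ), 0 ≤ K → LSI C f K →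
  (∀ x ∈ C, ∀ m l : ℕ, f x (m * l) = f x m * f x l) →
  ∀ (U : ℕ) (X : ℝ) (N : ℕ), 1 ≤ U → 1 ≤ X → 3 * X ≤ N →
    ∑ x ∈ C, ‖∑ m ∈ range (N + 1), ∑ l ∈ range (N + 1), (muGT U m : ℂ) * (gam U l : ℂ) *
      (f x (m * l) * ((hat (Real.log (m * l / X)) : ℝ) : ℂ))‖ ≤
    (Nat.log 2 N + 1) * (4 * √X * Real.log (3 * X + 1) * (K ^ 2 + 16 * K * √(X / U) + 44 * √X))

/-- T1. The linear part of Vaughan's identity. -/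
def T_T1 : Prop := ∀ (f : ℕ → ℂ) (B : ℝ), (∀ n, ‖f n‖ ≤ 1) → f 0 = 0 →
  (∀ m l, f (m * l) = f m * f l) → (∀ M, ‖∑ n ∈ range M, f n‖ ≤ B) →
  ∀ (U : ℕ) (X : ℝ), 1 ≤ U → 1 ≤ X → 3 * (U : ℝ) ≤ X →
    ‖TX X f - ∑ m ∈ range (NX X + 1), ∑ l ∈ range (NX X + 1), (muGT U m : ℂ) * (gam U l : ℂ) *
      (f (m * l) * ((hat (Real.log (m * l / X)) : ℝ) : ℂ))‖ ≤
    5 * (U * U : ℝ) * Real.log (NX X + 1) * B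

/-- CB. Trivial bound for character sums. -/
def T_CB : Prop := ∀ (q : ℕ) (χ : DirichletCharacter ℂ q), 1 ≤ q → χ ≠ 1 → ∀ M : ℕ,
  ‖∑ n ∈ range M, cv χ n‖ ≤ q

/-- MV. Mean value theorem. -/
def T_MV : Prop := ∃ C : ℝ, 0 < C ∧ ∀ (X : ℝ) (Q : ℕ), 3 ≤ X → (Q : ℝ) ^ 8 ≤ X →
  ∑ x ∈ PC Q, ‖TX X (cv x.2)‖ ≤ C * X * Real.log X ^ 2

/-! ## Part II: characters of small conductor -/

/-- PB. Series with bounded partial sums. -/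
def T_PB : Prop := ∀ k : ℕ, ∃ C : ℝ, 0 < C ∧ ∀ (f : ℕ → ℂ) (B : ℝ) (s : ℂ), 1 ≤ B →
  (∀ n, ‖f n‖ ≤ 1) → (∀ M, ‖∑ n ∈ range M, f n‖ ≤ B) → 1 < s.re → s.re ≤ 3 →
    ‖DS f k s‖ ≤ C * Real.log (B * (|s.im| + 3)) ^ (k + 1)

/-- ZB. The zeta function. -/
def T_ZB : Prop := ∃ C : ℝ, 0 < C ∧ ∀ s : ℂ, 1 < s.re → s.re ≤ 3 →
  ‖DS (fun _ => 1) 0 s‖ ≤ 1 / ‖s - 1‖ + C * Real.log (|s.im| + 3)

/-- PR. The principal character. -/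
def T_PR : Prop := ∃ C : ℝ, 0 < C ∧ ∀ (q : ℕ) (s : ℂ), 1 ≤ q → 1 < s.re → s.re ≤ 3 →
  ‖DS (cv (1 : DirichletCharacter ℂ q)) 0 s‖ ≤ 1 / ‖s - 1‖ + C * Real.log (q * (|s.im| + 3))

/-- TL. Trivial lower bound. -/
def T_TL : Prop := ∀ (q : ℕ) (χ : DirichletCharacter ℂ q) (s : ℂ), 1 ≤ q → 1 < s.re →
  s.re ≤ 3 → (s.re - 1) / 3 ≤ ‖DS (cv χ) 0 s‖

/-- DV. Lipschitz bound. -/
def T_DV : Prop := ∃ C : ℝ, 0 < C ∧ ∀ (f : ℕ → ℂ) (B T : ℝ) (s₁ s₂ : ℂ), 1 ≤ B → 0 ≤ T →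
  (∀ n, ‖f n‖ ≤ 1) → (∀ M, ‖∑ n ∈ range M, f n‖ ≤ B) → 1 < s₁.re → s₁.re ≤ 3 → 1 < s₂.re →
  s₂.re ≤ 3 → |s₁.im| ≤ T → |s₂.im| ≤ T →
    ‖DS f 0 s₁ - DS f 0 s₂‖ ≤ C * Real.log (B * (T + 3)) ^ 2 * ‖s₁ - s₂‖

/-- C4. Lower bound by the 3-4-1 inequality. -/
def T_C4 : Prop := ∃ c : ℝ, 0 < c ∧ ∀ (q : ℕ) (χ : DirichletCharacter ℂ q) (η : ℝ) (s : ℂ),
  1 ≤ q → χ ≠ 1 → 0 < η → η ≤ 1 → 1 < s.re → s.re ≤ 2 → (χ ^ 2 ≠ 1 ∨ η ≤ |s.im|) →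
    c * η / Real.log (q * (|s.im| + 3)) ^ 9 ≤ ‖DS (cv χ) 0 s‖

/-- RP. Product of four real L-functions. -/
def T_RP : Prop := ∀ (q₁ q₂ : ℕ) (χ₁ : DirichletCharacter ℂ q₁) (χ₂ : DirichletCharacter ℂ q₂)
  (x : ℝ), 1 ≤ q₁ → 1 ≤ q₂ → χ₁ ^ 2 = 1 → χ₂ ^ 2 = 1 → 0 < x → x ≤ 1 →
    1 ≤ ‖DS (fun _ => 1) 0 (1 + x)‖ * ‖DS (cv χ₁) 0 (1 + x)‖ * ‖DS (cv χ₂) 0 (1 + x)‖ *
      ‖DS (fun n => cv χ₁ n * cv χ₂ n) 0 (1 + x)‖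

/-- EA. Two real characters cannot both be exceptional. -/
def T_EA : Prop := ∃ C : ℝ, 0 < C ∧ ∀ (Q q₁ q₂ : ℕ) (χ₁ : DirichletCharacter ℂ q₁)
  (χ₂ : DirichletCharacter ℂ q₂) (x : ℝ), 3 ≤ Q → 2 ≤ q₁ → q₁ ≤ Q → 2 ≤ q₂ → q₂ ≤ Q →
  q₁ ≠ q₂ → χ₁.IsPrimitive → χ₂.IsPrimitive → χ₁ ^ 2 = 1 → χ₂ ^ 2 = 1 → 0 < x → x ≤ 1 →
    1 ≤ C / x * ‖DS (cv χ₁) 0 (1 + x)‖ * ‖DS (cv χ₂) 0 (1 + x)‖ * Real.log Q

/-- FX. Finitely many moduli. -/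
def T_FX : Prop := ∀ M : ℕ, ∃ δ : ℝ, 0 < δ ∧ ∀ (q : ℕ) (χ : DirichletCharacter ℂ q) (x : ℝ),
  1 ≤ q → q < M → χ ≠ 1 → 0 < x → x ≤ 1 → δ ≤ ‖DS (cv χ) 0 (1 + x)‖

/-- LO. Lower bound for all moduli except one. -/
def T_LO : Prop := ∃ (K : ℕ) (c : ℝ), 0 < c ∧ c ≤ 1 ∧ ∀ M : ℕ, ∃ Q₀ : ℕ, ∀ Q : ℕ, Q₀ ≤ Q →
  ∃ q₁ : ℕ, M ≤ q₁ ∧ ∀ (q : ℕ) (χ : DirichletCharacter ℂ q) (s : ℂ), 2 ≤ q → q ≤ Q → q ≠ q₁ →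
    χ.IsPrimitive → 1 < s.re → s.re ≤ 2 →
      c / (Real.log Q * Real.log (|s.im| + 3)) ^ K ≤ ‖DS (cv χ) 0 s‖

/-- GB. Derivatives of the logarithmic derivative. -/
def T_GB : Prop := ∀ k : ℕ, ∃ C : ℝ, 0 < C ∧ ∀ (q : ℕ) (χ : DirichletCharacter ℂ q) (s : ℂ)
  (m : ℝ), 1 ≤ q → χ ≠ 1 → 1 < s.re → s.re ≤ 2 → 0 < m → m ≤ 1 → m ≤ ‖DS (cv χ) 0 s‖ →
    ‖DS (fun n => (Λ n : ℂ) * cv χ n) k s‖ ≤
      C * (Real.log (q * (|s.im| + 3)) / m) ^ (2 * k + 2)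

/-- FT. Fourier representation of the weight. -/
def T_FT : Prop := ∀ k : ℕ, ∃ C : ℝ, 0 < C ∧ ∀ X : ℝ, 8 ≤ X → ∃ G : ℝ → ℂ, Continuous G ∧
  (∀ t, ‖G t‖ ≤ C * X / Real.log X ^ k / (1 + t ^ 2)) ∧
  ∀ y : ℝ, 0 < y → ((hat (y - Real.log X) : ℝ) : ℂ) =
    ((y ^ k * Real.exp (-((1 + 1 / Real.log X) * y)) : ℝ) : ℂ) *
      ∫ t : ℝ, G t * Complex.exp (t * y * Complex.I)

/-- IN. From bounds on the line to sums. -/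
def T_IN : Prop := ∀ k E : ℕ, ∃ C : ℝ, 0 < C ∧ ∀ (f : ℕ → ℂ) (X A : ℝ), (∀ n, ‖f n‖ ≤ 1) →
  8 ≤ X → (∀ t : ℝ, ‖DS (fun n => (Λ n : ℂ) * f n) k
    (((1 + 1 / Real.log X : ℝ) : ℂ) + t * Complex.I)‖ ≤ A * Real.log (|t| + 3) ^ E) →
  ‖TX X f‖ ≤ C * A * X / Real.log X ^ k

/-- SW. Small conductors, with one exceptional modulus. -/
def T_SW : Prop := ∀ A B M : ℕ, ∃ X₀ : ℝ, ∀ X : ℝ, X₀ ≤ X → ∃ q₁ : ℕ, M ≤ q₁ ∧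
  ∀ (q : ℕ) (χ : DirichletCharacter ℂ q), 2 ≤ q → (q : ℝ) ≤ Real.log X ^ A → q ≠ q₁ →
    χ.IsPrimitive → ‖TX X (cv χ)‖ ≤ X / Real.log X ^ B

/-! ## Part III: the mean value theorem of Bombieri-Vinogradov type -/

/-- PM. Passage to the primitive character. -/
def T_PM : Prop := ∀ (X : ℝ) (d : ℕ) (χ : DirichletCharacter ℂ d), 3 ≤ X → 1 ≤ d →
  (d : ℝ) ≤ X → ‖TX X (cv χ) - TX X (cv χ.primitiveCharacter)‖ ≤ 8 * Real.log X ^ 2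

/-- S1. The characters modulo `d` by their conductors. -/
def T_S1 : Prop := ∀ (X : ℝ) (d : ℕ), 3 ≤ X → 1 ≤ d → (d : ℝ) ≤ X →
  SC X d ≤ 8 * d * Real.log X ^ 2 + ∑ q ∈ d.divisors.erase 1, SP X q

/-- S2. Interchange of the sums over `d` and `q`. -/
def T_S2 : Prop := ∀ (D p₁ : ℕ) (F : ℕ → ℝ), (∀ q, 0 ≤ F q) →
  ∑ d ∈ DD D p₁, hd d * ∑ q ∈ d.divisors.erase 1, F q ≤
    (∑ e ∈ DD D p₁, hd e) * ∑ q ∈ (DD D p₁).erase 1, hd q * F q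

/-- HS. The sum of `2 ^ ω / φ`. -/
def T_HS : Prop := ∃ C : ℝ, 0 < C ∧ ∀ D p₁ : ℕ, ∑ e ∈ DD D p₁, hd e ≤ C * Real.log (D + 2) ^ 2

/-- HB. The size of `2 ^ ω / φ`. -/
def T_HB : Prop := ∀ d : ℕ, Squarefree d → Odd d → hd d ≤ 2 / √(d : ℝ)

/-- DY. Dyadic blocks. -/
def T_DY : Prop := ∃ C : ℝ, 0 < C ∧ ∀ (X : ℝ) (Q₀ D : ℕ), 3 ≤ X → 1 ≤ Q₀ →
  (2 * (D : ℝ)) ^ 8 ≤ X → ∑ q ∈ Ioc Q₀ D, SP X q / √(q : ℝ) ≤ C * X * Real.log X ^ 2 / √(Q₀ : ℝ)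

/-- SB. The number of primitive characters. -/
def T_SB : Prop := ∀ (X Y : ℝ) (q : ℕ), 1 ≤ q → (∀ χ : DirichletCharacter ℂ q, χ.IsPrimitive →
  ‖TX X (cv χ)‖ ≤ Y) → 0 ≤ Y → SP X q ≤ q.totient * Y

/-- BV. The mean value theorem. -/
def T_BV : Prop := ∀ A M : ℕ, ∃ X₀ : ℝ, ∀ X : ℝ, X₀ ≤ X → ∃ p₁ : ℕ, p₁.Prime ∧ M ≤ p₁ ∧
  (p₁ : ℝ) ^ 8 ≤ X ∧ ∀ D : ℕ, (2 * (D : ℝ)) ^ 8 ≤ X →
    ∑ d ∈ DD D p₁, hd d * SC X d ≤ X / Real.log X ^ A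

/-- CL. Residue classes. -/
def T_CL : Prop := ∀ (X : ℝ) (d : ℕ) (a : ZMod d), 3 ≤ X → 1 ≤ d → (d : ℝ) ≤ X → IsUnit a →
  |∑ n ∈ (Icc 1 (NX X)).filter (fun n : ℕ => (n : ZMod d) = a), wx X n - WX X / d.totient| ≤
    (SC X d + 8 * Real.log X ^ 2) / d.totient

/-- RO. Square roots of two. -/
def T_RO : Prop := ∀ d : ℕ, Squarefree d → Odd d →
  (((range d).filter (fun a : ℕ => (d : ℤ) ∣ (a : ℤ) ^ 2 - 2)).card : ℝ) =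
    ∏ p ∈ d.primeFactors, (if S8 p then (2 : ℝ) else 0) ∧
  ∀ a : ℕ, (d : ℤ) ∣ (a : ℤ) ^ 2 - 2 → a.Coprime d

/-- AD. The weight of the `n` with `d ∣ n ^ 2 - 2`. -/
def T_AD : Prop := ∀ (X : ℝ) (d : ℕ), 3 ≤ X → (d : ℝ) ≤ X → Squarefree d → Odd d →
  |∑ n ∈ (Icc 1 (NX X)).filter (fun n : ℕ => (d : ℤ) ∣ (n : ℤ) ^ 2 - 2), wx X n -
    WX X * ∏ p ∈ d.primeFactors, gg p| ≤ hd d * (SC X d + 8 * Real.log X ^ 2)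

/-! ## Part IV: the Brun-Hooley sieve -/

/-- PW. Truncated inclusion-exclusion. -/
def T_PW : Prop := ∀ (T : Finset ℕ) (b : ℕ),
  (if T = ∅ then (1 : ℝ) else 0) ≤
    ∑ s ∈ T.powerset, (if s.card ≤ 2 * b then (-1 : ℝ) ^ s.card else 0) ∧
  ∑ s ∈ T.powerset, (if s.card ≤ 2 * b then (-1 : ℝ) ^ s.card else 0) ≤
    (if T = ∅ then (1 : ℝ) else 0) + ∑ s ∈ T.powerset, (if s.card = 2 * b + 1 then (1 : ℝ) else 0)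

/-- TE. Telescoping of products. -/
def T_TE : Prop := ∀ (t : ℕ) (x y : ℕ → ℝ), (∀ j ∈ range t, 0 ≤ x j ∧ x j ≤ y j) →
  ∏ j ∈ range t, y j - ∑ l ∈ range t, (y l - x l) * ∏ j ∈ (range t).erase l, y j ≤
    ∏ j ∈ range t, x j

/-- XP. Expansion of a product over the levels. -/
def T_XP : Prop := ∀ (Ω P : Finset ℕ) (w : ℕ → ℝ) (dv : ℕ → ℕ → Prop) (lev b : ℕ → ℕ) (t : ℕ)
  (g : ℕ → ℝ) (Z : ℝ) (c : ℕ → ℕ → ℝ), (∀ j k, |c j k| ≤ 1) →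
  (∀ j k, 2 * b j + 1 < k → c j k = 0) → (∀ p ∈ P, lev p < t) →
    |(open Classical in ∑ n ∈ Ω, w n * ∏ j ∈ range t,
        ∑ s ∈ (P.filter (fun p => lev p = j ∧ dv p n)).powerset, c j s.card) -
      Z * ∏ j ∈ range t, ∑ s ∈ (P.filter (fun p => lev p = j)).powerset,
        c j s.card * ∏ p ∈ s, g p| ≤ Er Ω w dv g Z P lev b t

/-- YV. Truncated products. -/
def T_YV : Prop := ∀ (P : Finset ℕ) (g : ℕ → ℝ) (b : ℕ), (∀ p ∈ P, 0 ≤ g p ∧ g p < 1) →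
  0 < ∏ p ∈ P, (1 - g p) ∧
  ∏ p ∈ P, (1 - g p) ≤ ∑ s ∈ P.powerset,
    (if s.card ≤ 2 * b then (-1 : ℝ) ^ s.card else 0) * ∏ p ∈ s, g p ∧
  ∑ s ∈ P.powerset, (if s.card ≤ 2 * b then (-1 : ℝ) ^ s.card else 0) * ∏ p ∈ s, g p ≤
    ∏ p ∈ P, (1 - g p) +
      ∑ s ∈ P.powerset, (if s.card = 2 * b + 1 then (1 : ℝ) else 0) * ∏ p ∈ s, g p

/-- ES. Elementary symmetric sums. -/
def T_ES : Prop := ∀ (P : Finset ℕ) (g : ℕ → ℝ) (k : ℕ), (∀ p ∈ P, 0 ≤ g p) →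
  ∑ s ∈ P.powerset, (if s.card = k then (1 : ℝ) else 0) * ∏ p ∈ s, g p ≤
    (∑ p ∈ P, g p) ^ k / k !

/-- BL. Brun-Hooley, lower bound. -/
def T_BL : Prop := ∀ (Ω P : Finset ℕ) (w : ℕ → ℝ) (dv : ℕ → ℕ → Prop) (lev b : ℕ → ℕ) (t : ℕ)
  (g : ℕ → ℝ) (Z : ℝ), (∀ n ∈ Ω, 0 ≤ w n) → 0 ≤ Z → (∀ p ∈ P, 0 ≤ g p ∧ g p < 1) →
  (∀ p ∈ P, lev p < t) →
    Z * (∏ p ∈ P, (1 - g p)) * (1 - ∑ j ∈ range t, qj P lev g j (b j)) -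
      (t + 1) * Er Ω w dv g Z P lev b t ≤ Sf Ω w dv P

/-- BU. Brun-Hooley, upper bound. -/
def T_BU : Prop := ∀ (Ω P : Finset ℕ) (w : ℕ → ℝ) (dv : ℕ → ℕ → Prop) (lev b : ℕ → ℕ) (t : ℕ)
  (g : ℕ → ℝ) (Z : ℝ), (∀ n ∈ Ω, 0 ≤ w n) → 0 ≤ Z → (∀ p ∈ P, 0 ≤ g p ∧ g p < 1) →
  (∀ p ∈ P, lev p < t) →
    Sf Ω w dv P ≤ Z * (∏ p ∈ P, (1 - g p)) * Real.exp (∑ j ∈ range t, qj P lev g j (b j)) +
      Er Ω w dv g Z P lev b t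

/-! ## Part V: the levels -/

/-- LV. Levels of primes. -/
def T_LV : Prop := ∀ (z : ℝ) (p₁ : ℕ), 3 ≤ z →
  (∀ p ∈ PZ z p₁, lv z p < nl z) ∧
  (∀ p ∈ PZ z p₁, z ^ ((1 / 2 : ℝ) ^ (lv z p + 1)) < p ∧ (p : ℝ) ≤ z ^ ((1 / 2 : ℝ) ^ (lv z p))) ∧
  (∀ b : ℕ, ∀ s ∈ Sad (PZ z p₁) (lv z) (fun j => b + j) (nl z),
    ((∏ p ∈ s, p : ℕ) : ℝ) ≤ z ^ (4 * b + 6)) ∧
  (nl z : ℝ) ≤ 3 * Real.log z

/-- LJ. Reciprocals of the primes of one level. -/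
def T_LJ : Prop := ∃ L : ℝ, 0 < L ∧ ∀ y : ℝ, 1 ≤ y →
  ∑ p ∈ (Icc 3 ⌊y ^ 2⌋₊).filter (fun p : ℕ => p.Prime ∧ y < (p : ℝ)), 3 / (p : ℝ) ≤ L

/-- B0. Choice of the truncation. -/
def T_B0 : Prop := ∀ L v : ℝ, 0 ≤ L → 0 < v → ∃ b : ℕ, ∀ t : ℕ,
  ∑ j ∈ range t, L ^ (2 * (b + j) + 1) / ((2 * (b + j) + 1)! * v) ≤ 1 / 2

/-- QJ. The quotients of the levels for densities up to `3 / p`. -/
def T_QJ : Prop := ∃ b : ℕ, ∀ (z : ℝ) (p₁ : ℕ) (g : ℕ → ℝ), 3 ≤ z →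
  (∀ p ∈ PZ z p₁, 0 ≤ g p ∧ g p ≤ 3 / p ∧ g p ≤ 1 / 2) →
    ∑ j ∈ range (nl z), qj (PZ z p₁) (lv z) g j (b + j) ≤ 1 / 2

/-- VL. Lower bound for the main product. -/
def T_VL : Prop := ∃ c : ℝ, 0 < c ∧ ∀ (z : ℝ) (p₁ : ℕ), 3 ≤ z →
  c / Real.log z ≤ ∏ p ∈ PZ z p₁, (1 - gg p)

/-- ML. Mertens, lower bound. -/
def T_ML : Prop := ∃ C : ℝ, ∀ y : ℕ, 3 ≤ y →
  Real.log (Real.log y) - C ≤ ∑ q ∈ (Icc 1 y).filter Nat.Prime, (1 : ℝ) / q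

/-- M9. Mertens for the primes `1, 7 mod 8`, lower bound. -/
def T_M9 : Prop := ∃ C : ℝ, ∀ y : ℕ, 3 ≤ y →
  1 / 2 * Real.log (Real.log y) - C ≤
    ∑ q ∈ (Icc 1 y).filter (fun q => q.Prime ∧ S8 q), (1 : ℝ) / q

/-- VU. Upper bound for the product of dimension two. -/
def T_VU : Prop := ∃ C : ℝ, 0 < C ∧ ∀ (z : ℝ) (p₁ : ℕ), 3 ≤ z → 3 ≤ p₁ →
  ∏ p ∈ PZ z p₁, (1 - gr p) ≤ C / Real.log z ^ 2

/-- RH. Counting the `m` with `d ∣ n (n ^ 2 - 2)`, `n = p₁ m + r`. -/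
def T_RH : Prop := ∀ (p₁ r M : ℕ) (s : Finset ℕ), p₁.Prime →
  (∀ p ∈ s, p.Prime ∧ 3 ≤ p ∧ p ≠ p₁) →
    |(((range M).filter (fun m : ℕ => ∀ p ∈ s, (p : ℤ) ∣
      ((p₁ * m + r : ℕ) : ℤ) * (((p₁ * m + r : ℕ) : ℤ) ^ 2 - 2))).card : ℝ) -
        M * ∏ p ∈ s, gr p| ≤ 3 ^ s.card

/-! ## Part VI: conclusions -/

/-- WM. The total weight. -/
def T_WM : Prop := ∃ (c X₀ : ℝ), 0 < c ∧ ∀ X : ℝ, X₀ ≤ X → c * X ≤ WX X ∧ WX X ≤ 100 * X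

/-- LL. Lower sieve. -/
def T_LL : Prop := ∃ η₀ : ℝ, 0 < η₀ ∧ ∀ η : ℝ, 0 < η → η ≤ η₀ → ∃ c : ℝ, 0 < c ∧ ∀ M : ℕ,
  ∃ X₀ : ℝ, ∀ X : ℝ, X₀ ≤ X → ∃ p₁ : ℕ, p₁.Prime ∧ M ≤ p₁ ∧ (p₁ : ℝ) ^ 8 ≤ X ∧
    c * X / Real.log X ≤ ∑ n ∈ (Icc 1 (NX X)).filter
      (fun n : ℕ => ∀ p ∈ PZ (X ^ η) p₁, ¬ (p : ℤ) ∣ (n : ℤ) ^ 2 - 2), wx X n

/-- UU. Upper sieve. -/
def T_UU : Prop := ∃ η₀ : ℝ, 0 < η₀ ∧ ∀ η : ℝ, 0 < η → η ≤ η₀ → ∃ C X₀ : ℝ, 0 < C ∧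
  ∀ (X : ℝ) (p₁ : ℕ), X₀ ≤ X → p₁.Prime → 3 ≤ p₁ → (p₁ : ℝ) ^ 8 ≤ X →
    (((Icc 1 (NX X)).filter (fun n : ℕ => (p₁ : ℤ) ∣ (n : ℤ) ^ 2 - 2 ∧
      ∀ p ∈ PZ (X ^ η) p₁, ¬ (p : ℤ) ∣ (n : ℤ) * ((n : ℤ) ^ 2 - 2))).card : ℝ) ≤
        C * X / (p₁ * Real.log X ^ 2)

/-- LB. Primes `p` for which `p ^ 2 - 2` has a bounded number of prime factors. -/
def T_LB : Prop := ∃ (R : ℕ) (c : ℝ) (x₀ : ℕ), 0 < c ∧ ∀ x : ℕ, x₀ ≤ x →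
  c * x / Real.log x ^ 2 ≤ (((Icc 1 x).filter (fun p => p.Prime ∧
    cardFactors (p ^ 2 - 2) ≤ R)).card : ℝ)

/-- PL. Lower bound for the `n`-th prime. -/
def T_PL : Prop := ∃ c : ℝ, 0 < c ∧ ∀ n : ℕ, 2 ≤ n → c * n * Real.log n ≤ (pr n : ℝ)

open Classical in
/-- FB. The final theorem. -/
def T_FB : Prop := ∃ (R : ℕ) (c : ℝ) (n₀ : ℕ), 0 < c ∧ ∀ n : ℕ, n₀ ≤ n →
  c * n / Real.log n ≤ (((Icc 1 (n - 1)).filter (fun k =>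
    cardFactors (pr k ^ 2 - 2) ≤ R ∧
    (cardFactors (pr (n - k) ^ 2 - 2) : ℝ) ≤ 2.8 * Real.log (Real.log n) ∧
    (cardFactors (pr (pr (n - k)) ^ 2 - 2) : ℝ) ≤ 3.7 * Real.log (Real.log n))).card : ℝ) ∧
  c * n / Real.log n ≤ (((Icc 1 (n - 1)).filter (fun m =>
    (cardFactors (pr (n - m) ^ 2 - 2) : ℝ) ≤ 2.8 * Real.log (Real.log n) ∧
    cardFactors (pr m ^ 2 - 2) ≤ R ∧
    (cardFactors (pr (pr m) ^ 2 - 2) : ℝ) ≤ 3.7 * Real.log (Real.log n))).card : ℝ)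

end Pool.Agent.H30.BV
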