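import Pool.Agent.H30.BV.Targets

/-! GB: derivatives of the logarithmic derivative. -/

set_option autoImplicit false

open Finset Real ArithmeticFunction
open Pool.Agent.H30.BV

namespace Pool.Agent.H30.BV.GB

/-- the summands of `DS (cv χ) j` -/
noncomputable def dj {q : ℕ} (χ : DirichletCharacter ℂ q) (j : ℕ) (n : ℕ) : ℂ :=
  cv χ n * ((Real.log n ^ j : ℝ) : ℂ)

/-- the summands of `DS (Λ * cv χ) j` -/
noncomputable def gj {q : ℕ} (χ : DirichletCharacter ℂ q) (j : ℕ) (n : ℕ) : ℂ :=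
  ((Λ n : ℝ) : ℂ) * cv χ n * ((Real.log n ^ j : ℝ) : ℂ)

theorem cv_norm {q : ℕ} (χ : DirichletCharacter ℂ q) (n : ℕ) : ‖cv χ n‖ ≤ 1 :=
  χ.norm_le_one _

theorem cv_mul {q : ℕ} (χ : DirichletCharacter ℂ q) (m n : ℕ) :
    cv χ (m * n) = cv χ m * cv χ n := by
  unfold cv
  rw [Nat.cast_mul, map_mul]

theorem summ {f : ℕ → ℂ} {s : ℂ} (hs : 1 < s.re) (j : ℕ)
    (h : ∀ n ≠ 0, ‖f n‖ ≤ Real.log n ^ (j + 1)) : LSeriesSummable f s := by
  have he : 0 < (s.re - 1) / 2 := by linarith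
  have hd : 0 < (s.re - 1) / 2 / (j + 1 : ℕ) := div_pos he (by positivity)
  refine LSeriesSummable_of_le_const_mul_rpow (x := 1 + (s.re - 1) / 2) (by linarith)
    ⟨(1 / ((s.re - 1) / 2 / (j + 1 : ℕ))) ^ (j + 1), fun n hn => ?_⟩
  refine (h n hn).trans ?_
  have hn1 : (1 : ℝ) ≤ n := by exact_mod_cast Nat.one_le_iff_ne_zero.2 hn
  have h1 := Real.log_le_rpow_div (x := (n : ℝ)) (by linarith) hd
  have h0 : 0 ≤ Real.log n := Real.log_nonneg hn1
  have h2 := pow_le_pow_left₀ h0 h1 (j + 1)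
  refine h2.trans (le_of_eq ?_)
  rw [div_pow, one_div, inv_pow, mul_comm, ← div_eq_mul_inv]
  congr 1
  rw [← Real.rpow_natCast, ← Real.rpow_mul (by linarith)]
  congr 1
  have hj : ((j + 1 : ℕ) : ℝ) ≠ 0 := by positivity
  field_simp
  ring

theorem log_nn (n : ℕ) : 0 ≤ Real.log n := Real.log_natCast_nonneg n

theorem summ_d {q : ℕ} (χ : DirichletCharacter ℂ q) (j : ℕ) {s : ℂ} (hs : 1 < s.re) :
    LSeriesSummable (dj χ j) s := by
  have he : 0 < (s.re - 1) / 2 := by linarith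
  cases j with
  | zero =>
    refine LSeriesSummable_of_le_const_mul_rpow (x := 1) hs ⟨1, fun n _ => ?_⟩
    unfold dj
    rw [pow_zero, Complex.ofReal_one, mul_one, sub_self, Real.rpow_zero, mul_one]
    exact cv_norm χ n
  | succ j =>
    refine summ hs j fun n _ => ?_
    unfold dj
    rw [norm_mul, Complex.norm_real, Real.norm_of_nonneg (pow_nonneg (log_nn n) _)]
    calc ‖cv χ n‖ * Real.log n ^ (j + 1) ≤ 1 * Real.log n ^ (j + 1) :=
          mul_le_mul_of_nonneg_right (cv_norm χ n) (pow_nonneg (log_nn n) _)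
      _ = Real.log n ^ (j + 1) := one_mul _

theorem summ_g {q : ℕ} (χ : DirichletCharacter ℂ q) (j : ℕ) {s : ℂ} (hs : 1 < s.re) :
    LSeriesSummable (gj χ j) s := by
  refine summ hs j fun n _ => ?_
  unfold gj
  rw [norm_mul, norm_mul, Complex.norm_real, Complex.norm_real,
    Real.norm_of_nonneg (pow_nonneg (log_nn n) _),
    Real.norm_of_nonneg (vonMangoldt_nonneg : 0 ≤ Λ n)]
  calc Λ n * ‖cv χ n‖ * Real.log n ^ j ≤ Real.log n * 1 * Real.log n ^ j := by
        refine mul_le_mul_of_nonneg_right ?_ (pow_nonneg (log_nn n) _)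
        exact mul_le_mul vonMangoldt_le_log (cv_norm χ n) (norm_nonneg _) (log_nn n)
    _ = Real.log n ^ (j + 1) := by ring

theorem key_coef {q : ℕ} (χ : DirichletCharacter ℂ q) (k n : ℕ) (hn : n ≠ 0) :
    dj χ (k + 1) n =
      (∑ j ∈ range (k + 1), (k.choose j : ℂ) • LSeries.convolution (gj χ j) (dj χ (k - j))) n := by
  rw [Finset.sum_apply]
  have h1 : ∀ j ∈ range (k + 1),
      ((k.choose j : ℂ) • LSeries.convolution (gj χ j) (dj χ (k - j))) n =
        ∑ p ∈ n.divisorsAntidiagonal, (k.choose j : ℂ) * (gj χ j p.1 * dj χ (k - j) p.2) := by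
    intro j _
    rw [LSeries.convolution_def, Pi.smul_apply, smul_eq_mul, Finset.mul_sum]
  rw [Finset.sum_congr rfl h1, Finset.sum_comm]
  have h2 : ∀ p ∈ n.divisorsAntidiagonal,
      ∑ j ∈ range (k + 1), (k.choose j : ℂ) * (gj χ j p.1 * dj χ (k - j) p.2) =
        ((Λ p.1 : ℝ) : ℂ) * (cv χ n * ((Real.log n ^ k : ℝ) : ℂ)) := by
    intro p hp
    obtain ⟨hpn, _⟩ := Nat.mem_divisorsAntidiagonal.1 hp
    obtain ⟨hp1, hp2⟩ := Nat.ne_zero_of_mem_divisorsAntidiagonal hp
    have h3 : Real.log n = Real.log p.1 + Real.log p.2 := by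
      rw [← hpn, Nat.cast_mul, Real.log_mul (by exact_mod_cast hp1) (by exact_mod_cast hp2)]
    rw [h3, add_pow, ← hpn, cv_mul, Complex.ofReal_sum, Finset.mul_sum, Finset.mul_sum]
    refine Finset.sum_congr rfl fun j _ => ?_
    unfold gj dj
    push_cast
    ring
  rw [Finset.sum_congr rfl h2, ← Finset.sum_mul, ← Complex.ofReal_sum]
  have h4 : ∑ p ∈ n.divisorsAntidiagonal, Λ p.1 = Real.log n := by
    rw [← vonMangoldt_sum (n := n), ← Nat.image_fst_divisorsAntidiagonal, Finset.sum_image]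
    intro x hx y hy hxy
    have hx' := Nat.mem_divisorsAntidiagonal.1 (Finset.mem_coe.1 hx)
    have hy' := Nat.mem_divisorsAntidiagonal.1 (Finset.mem_coe.1 hy)
    refine Prod.ext hxy ?_
    have h5 : x.1 * x.2 = x.1 * y.2 := by rw [hx'.1, hxy, hy'.1]
    have h6 : x.1 ≠ 0 := by
      intro h7
      rw [h7, zero_mul] at hx'
      exact hx'.2 hx'.1.symm
    exact Nat.eq_of_mul_eq_mul_left (Nat.pos_of_ne_zero h6) h5
  rw [h4]
  unfold dj
  push_cast
  ring

theorem key {q : ℕ} (χ : DirichletCharacter ℂ q) (k : ℕ) {s : ℂ} (hs : 1 < s.re) :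
    LSeries (dj χ (k + 1)) s =
      ∑ j ∈ range (k + 1), (k.choose j : ℂ) * (LSeries (gj χ j) s * LSeries (dj χ (k - j)) s) := by
  rw [LSeries_congr (fun {n} hn => key_coef χ k n hn) s, LSeries_sum]
  · refine Finset.sum_congr rfl fun j _ => ?_
    rw [LSeries_smul, LSeries_convolution' (summ_g χ j hs) (summ_d χ _ hs)]
  · intro j _
    exact ((summ_g χ j hs).convolution (summ_d χ _ hs)).smul _

theorem gb (hCB : T_CB) (hPB : T_PB) : T_GB := by
  intro k
  induction k using Nat.strong_induction_on with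
  | _ k ih =>
    choose! c hc0 hc using ih
    choose A hA0 hA using hPB
    have hS0 : 0 ≤ ∑ j ∈ range k, (k.choose j : ℝ) * (c j * A (k - j)) :=
      Finset.sum_nonneg fun j hj => mul_nonneg (Nat.cast_nonneg _)
        (mul_nonneg (hc0 j (Finset.mem_range.1 hj)).le (hA0 _).le)
    refine ⟨A (k + 1) + ∑ j ∈ range k, (k.choose j : ℝ) * (c j * A (k - j)),
      add_pos_of_pos_of_nonneg (hA0 _) hS0, ?_⟩
    intro q χ s m hq hχ hs1 hs2 hm hm1 hms
    set l : ℝ := Real.log (q * (|s.im| + 3)) with hl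
    have hq1 : (1 : ℝ) ≤ q := by exact_mod_cast hq
    have hl1 : 1 ≤ l := by
      rw [hl, Real.le_log_iff_exp_le (by positivity)]
      have h1 : Real.exp 1 < 3 := lt_trans Real.exp_one_lt_d9 (by norm_num)
      have h2 : (3 : ℝ) ≤ |s.im| + 3 := by linarith [abs_nonneg s.im]
      nlinarith
    have hD : ∀ j, ‖LSeries (dj χ j) s‖ ≤ A j * l ^ (j + 1) := fun j =>
      hA j (cv χ) q s hq1 (cv_norm χ) (hCB q χ hq hχ) hs1 (by linarith)
    have hG : ∀ j < k, ‖LSeries (gj χ j) s‖ ≤ c j * (l / m) ^ (2 * j + 2) := fun j hj =>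
      hc j hj q χ s m hq hχ hs1 hs2 hm hm1 hms
    have hms' : m ≤ ‖LSeries (dj χ 0) s‖ := hms
    show ‖LSeries (gj χ k) s‖ ≤ _
    have hkey := key χ k hs1
    rw [Finset.sum_range_succ, Nat.choose_self, Nat.sub_self, Nat.cast_one, one_mul] at hkey
    have h1 : LSeries (gj χ k) s * LSeries (dj χ 0) s = LSeries (dj χ (k + 1)) s -
        ∑ j ∈ range k, (k.choose j : ℂ) * (LSeries (gj χ j) s * LSeries (dj χ (k - j)) s) := by
      rw [hkey]; ring
    have h2 : ‖LSeries (gj χ k) s‖ * ‖LSeries (dj χ 0) s‖ ≤ A (k + 1) * l ^ (k + 2) +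
        ∑ j ∈ range k, (k.choose j : ℝ) * ((c j * (l / m) ^ (2 * j + 2)) *
          (A (k - j) * l ^ (k - j + 1))) := by
      rw [← norm_mul, h1]
      refine (norm_sub_le _ _).trans (add_le_add (hD (k + 1)) ?_)
      refine (norm_sum_le _ _).trans (Finset.sum_le_sum fun j hj => ?_)
      rw [norm_mul, norm_mul, Complex.norm_natCast]
      refine mul_le_mul_of_nonneg_left ?_ (Nat.cast_nonneg _)
      exact mul_le_mul (hG j (Finset.mem_range.1 hj)) (hD _) (norm_nonneg _)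
        (mul_nonneg (hc0 j (Finset.mem_range.1 hj)).le (by positivity))
    have h3 : ‖LSeries (gj χ k) s‖ * m ≤ ‖LSeries (gj χ k) s‖ * ‖LSeries (dj χ 0) s‖ :=
      mul_le_mul_of_nonneg_left hms' (norm_nonneg _)
    have hL1 : 1 ≤ l / m := by
      rw [le_div_iff₀ hm]; linarith
    have hlL : l ≤ l / m := by
      rw [le_div_iff₀ hm]
      nlinarith
    have h4 : A (k + 1) * l ^ (k + 2) ≤ m * (A (k + 1) * (l / m) ^ (2 * k + 2)) := by
      have e1 : l ^ (k + 2) = m * (l ^ (k + 1) * (l / m)) := by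
        rw [pow_succ l (k + 1)]
        field_simp
      have e2 : l ^ (k + 1) * (l / m) ≤ (l / m) ^ (2 * k + 2) := by
        calc l ^ (k + 1) * (l / m) ≤ (l / m) ^ (k + 1) * (l / m) :=
              mul_le_mul_of_nonneg_right (pow_le_pow_left₀ (by linarith) hlL _) (by linarith)
          _ = (l / m) ^ (k + 2) := by ring
          _ ≤ (l / m) ^ (2 * k + 2) := pow_le_pow_right₀ hL1 (by omega)
      rw [e1]
      calc A (k + 1) * (m * (l ^ (k + 1) * (l / m))) = m * (A (k + 1) * (l ^ (k + 1) * (l / m))) := by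
            ring
        _ ≤ m * (A (k + 1) * (l / m) ^ (2 * k + 2)) :=
            mul_le_mul_of_nonneg_left (mul_le_mul_of_nonneg_left e2 (hA0 _).le) hm.le
    have h5 : ∑ j ∈ range k, (k.choose j : ℝ) * ((c j * (l / m) ^ (2 * j + 2)) *
          (A (k - j) * l ^ (k - j + 1))) ≤
        m * ((∑ j ∈ range k, (k.choose j : ℝ) * (c j * A (k - j))) * (l / m) ^ (2 * k + 2)) := by
      rw [Finset.sum_mul, Finset.mul_sum]
      refine Finset.sum_le_sum fun j hj => ?_
      have hjk := Finset.mem_range.1 hj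
      have e1 : l ^ (k - j + 1) = m * (l ^ (k - j) * (l / m)) := by
        rw [pow_succ l (k - j)]
        field_simp
      have e2 : (l / m) ^ (2 * j + 2) * (l ^ (k - j) * (l / m)) ≤ (l / m) ^ (2 * k + 2) := by
        calc (l / m) ^ (2 * j + 2) * (l ^ (k - j) * (l / m)) ≤
              (l / m) ^ (2 * j + 2) * ((l / m) ^ (k - j) * (l / m)) :=
              mul_le_mul_of_nonneg_left (mul_le_mul_of_nonneg_right
                (pow_le_pow_left₀ (by linarith) hlL _) (by linarith)) (by positivity)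
          _ = (l / m) ^ (2 * j + 2 + (k - j) + 1) := by ring
          _ ≤ (l / m) ^ (2 * k + 2) := pow_le_pow_right₀ hL1 (by omega)
      have e3 : 0 ≤ (k.choose j : ℝ) * (c j * A (k - j)) := mul_nonneg (Nat.cast_nonneg _)
        (mul_nonneg (hc0 j hjk).le (hA0 _).le)
      rw [e1]
      calc (k.choose j : ℝ) * ((c j * (l / m) ^ (2 * j + 2)) *
            (A (k - j) * (m * (l ^ (k - j) * (l / m))))) =
            m * ((k.choose j : ℝ) * (c j * A (k - j)) *
              ((l / m) ^ (2 * j + 2) * (l ^ (k - j) * (l / m)))) := by ring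
        _ ≤ m * ((k.choose j : ℝ) * (c j * A (k - j)) * (l / m) ^ (2 * k + 2)) :=
            mul_le_mul_of_nonneg_left (mul_le_mul_of_nonneg_left e2 e3) hm.le
    have h6 : m * ‖LSeries (gj χ k) s‖ ≤ m * ((A (k + 1) +
        ∑ j ∈ range k, (k.choose j : ℝ) * (c j * A (k - j))) * (l / m) ^ (2 * k + 2)) := by
      calc m * ‖LSeries (gj χ k) s‖ = ‖LSeries (gj χ k) s‖ * m := mul_comm _ _
        _ ≤ _ := h3
        _ ≤ _ := h2
        _ ≤ _ := add_le_add h4 h5
        _ = _ := by ring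
    exact le_of_mul_le_mul_left h6 hm

end Pool.Agent.H30.BV.GB
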